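import Pool.Agent.Run7.h802.FH.Iface

/-!
# Few integers have a small radical (piece RADN)
-/

set_option autoImplicit false

namespace Run7.h771.FH

open Pool.Agent.Run7.h802.FH

/-- the multiplicative function `n ^ (-η)` -/
noncomputable def fη (η : ℝ) : ℕ →* ℝ where
  toFun n := (n : ℝ) ^ (-η)
  map_one' := by simp
  map_mul' a b := by
    push_cast
    rw [Real.mul_rpow (Nat.cast_nonneg a) (Nat.cast_nonneg b)]

theorem fη_apply (η : ℝ) (n : ℕ) : fη η n = (n : ℝ) ^ (-η) := rfl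

theorem sum_factored {η : ℝ} (hη : 0 < η) (S : Finset ℕ) (hS : ∀ p ∈ S, p.Prime)
    (A : Finset ℕ) (hA : ∀ m ∈ A, m ∈ Nat.factoredNumbers S) :
    ∑ m ∈ A, (m : ℝ) ^ (-η) ≤ ∏ p ∈ S, (1 - (p : ℝ) ^ (-η))⁻¹ := by
  have h1 : ∀ {p : ℕ}, p.Prime → ‖fη η p‖ < 1 := by
    intro p hp
    rw [fη_apply, Real.norm_of_nonneg (Real.rpow_nonneg (Nat.cast_nonneg _) _)]
    exact Real.rpow_lt_one_of_one_lt_of_neg (by exact_mod_cast hp.one_lt) (by linarith)
  obtain ⟨hs, hsum⟩ := EulerProduct.summable_and_hasSum_factoredNumbers_prod_filter_prime_geometric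
    h1 S
  rw [Finset.filter_true_of_mem hS] at hsum
  have h2 := sum_le_hasSum (A.attach.map ⟨fun m => (⟨m.1, hA m.1 m.2⟩ : Nat.factoredNumbers S),
    fun a b h => Subtype.ext (by have h' := congrArg Subtype.val h; exact h')⟩)
    (fun m _ => by
      show 0 ≤ ((m : ℕ) : ℝ) ^ (-η)
      positivity) hsum
  rw [Finset.sum_map] at h2
  have h3 : ∑ m ∈ A.attach, ((m.1 : ℕ) : ℝ) ^ (-η) ≤ ∏ p ∈ S, (1 - (p : ℝ) ^ (-η))⁻¹ := h2
  rw [Finset.sum_attach A (fun m => (m : ℝ) ^ (-η))] at h3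
  exact h3

theorem prod_le' (g : ℕ → ℝ) (P₀ : ℕ) (S : Finset ℕ) (hg0 : ∀ p ∈ S, 0 ≤ g p)
    (hg : ∀ p, P₀ ≤ p → g p ≤ 1) :
    ∏ p ∈ S, g p ≤ ∏ p ∈ Finset.range P₀, max 1 (g p) := by
  calc ∏ p ∈ S, g p ≤ ∏ p ∈ S, max 1 (g p) :=
        Finset.prod_le_prod hg0 fun p _ => le_max_right _ _
    _ = ∏ p ∈ S with p < P₀, max 1 (g p) := by
        refine (Finset.prod_subset (Finset.filter_subset _ _) fun p hp hp' => ?_).symm
        have : P₀ ≤ p := by
          by_contra h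
          exact hp' (Finset.mem_filter.mpr ⟨hp, not_le.mp h⟩)
        exact max_eq_left (hg p this)
    _ ≤ ∏ p ∈ Finset.range P₀, max 1 (g p) := by
        have hsub : (S.filter fun p => p < P₀) ⊆ Finset.range P₀ := fun p hp =>
          Finset.mem_range.mpr (Finset.mem_filter.mp hp).2
        rw [← Finset.prod_sdiff hsub]
        have h1 : 1 ≤ ∏ p ∈ Finset.range P₀ \ (S.filter fun p => p < P₀), max 1 (g p) :=
          Finset.prod_induction _ (1 ≤ ·) (fun a b ha hb => one_le_mul_of_one_le_of_one_le ha hb)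
            le_rfl fun p _ => le_max_left _ _
        have h2 : 0 ≤ ∏ p ∈ S with p < P₀, max 1 (g p) :=
          Finset.prod_nonneg fun p _ => zero_le_one.trans (le_max_left _ _)
        exact le_mul_of_one_le_left h2 h1

theorem count_rad {η : ℝ} (hη : 0 < η) (X r : ℕ) (A : Finset ℕ)
    (hA : ∀ n ∈ A, 1 ≤ n ∧ n ≤ X ∧ ∏ p ∈ n.primeFactors, p = r) :
    (A.card : ℝ) ≤ (∏ p ∈ r.primeFactors, ((p : ℝ) ^ η - 1)⁻¹) * (X : ℝ) ^ η := by
  rcases A.eq_empty_or_nonempty with h0 | ⟨n₀, hn₀⟩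
  · rw [h0, Finset.card_empty, Nat.cast_zero]
    refine mul_nonneg (Finset.prod_nonneg fun p hp => ?_) (by positivity)
    have hp' : (1 : ℝ) < p := by exact_mod_cast (Nat.prime_of_mem_primeFactors hp).one_lt
    have := Real.one_lt_rpow hp' hη
    exact inv_nonneg.mpr (by linarith)
  have hpf : ∀ n ∈ A, r.primeFactors = n.primeFactors := by
    intro n hn
    rw [← (hA n hn).2.2]
    exact Nat.primeFactors_prod fun p hp => Nat.prime_of_mem_primeFactors hp
  have hdvd : ∀ n ∈ A, r ∣ n := by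
    intro n hn
    rw [← (hA n hn).2.2]
    exact Nat.prod_primeFactors_dvd n
  have hr : ∏ p ∈ r.primeFactors, p = r := by
    rw [hpf n₀ hn₀]
    exact (hA n₀ hn₀).2.2
  have hrpos : 0 < r := Nat.pos_of_dvd_of_pos (hdvd n₀ hn₀) (hA n₀ hn₀).1
  have hinj : Set.InjOn (fun n => n / r) (A : Set ℕ) := by
    intro a ha b hb hab
    have h1 := Nat.mul_div_cancel' (hdvd a ha)
    have h2 := Nat.mul_div_cancel' (hdvd b hb)
    simp only at hab
    rw [← h1, ← h2, hab]
  have hmem : ∀ m ∈ A.image (fun n => n / r), m ∈ Nat.factoredNumbers r.primeFactors := by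
    intro m hm
    obtain ⟨n, hn, rfl⟩ := Finset.mem_image.mp hm
    have h1 : n / r ∣ n := Nat.div_dvd_of_dvd (hdvd n hn)
    have h2 : n ≠ 0 := by have := (hA n hn).1; omega
    refine Nat.mem_factoredNumbers_of_primeFactors_subset ?_ ?_
    · intro h
      rw [h, zero_dvd_iff] at h1
      exact h2 h1
    · rw [hpf n hn]
      exact Nat.primeFactors_mono h1 h2
  have h1 := sum_factored hη r.primeFactors (fun p hp => Nat.prime_of_mem_primeFactors hp) _ hmem
  rw [Finset.sum_image hinj] at h1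
  have h2 : ∀ n ∈ A, (1 : ℝ) ≤ (X : ℝ) ^ η * ((r : ℝ) ^ (-η) * ((n / r : ℕ) : ℝ) ^ (-η)) := by
    intro n hn
    have hn1 : (0 : ℝ) < n := by exact_mod_cast (hA n hn).1
    have hnX : (n : ℝ) ≤ X := by exact_mod_cast (hA n hn).2.1
    rw [← Real.mul_rpow (Nat.cast_nonneg _) (Nat.cast_nonneg _)]
    have h3 : (r : ℝ) * ((n / r : ℕ) : ℝ) = n := by
      exact_mod_cast Nat.mul_div_cancel' (hdvd n hn)
    rw [h3, Real.rpow_neg hn1.le, ← div_eq_mul_inv, one_le_div (by positivity)]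
    exact Real.rpow_le_rpow hn1.le hnX hη.le
  calc (A.card : ℝ) = ∑ n ∈ A, (1 : ℝ) := by simp
    _ ≤ ∑ n ∈ A, (X : ℝ) ^ η * ((r : ℝ) ^ (-η) * ((n / r : ℕ) : ℝ) ^ (-η)) :=
        Finset.sum_le_sum h2
    _ = (X : ℝ) ^ η * ((r : ℝ) ^ (-η) * ∑ n ∈ A, ((n / r : ℕ) : ℝ) ^ (-η)) := by
        rw [Finset.mul_sum, Finset.mul_sum]
    _ ≤ (X : ℝ) ^ η * ((r : ℝ) ^ (-η) * ∏ p ∈ r.primeFactors, (1 - (p : ℝ) ^ (-η))⁻¹) := by
        gcongr
    _ = (X : ℝ) ^ η * ∏ p ∈ r.primeFactors, ((p : ℝ) ^ η - 1)⁻¹ := by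
        congr 1
        have h4 : (r : ℝ) ^ (-η) = ∏ p ∈ r.primeFactors, (p : ℝ) ^ (-η) := by
          rw [Real.finsetProd_rpow _ _ (fun p _ => Nat.cast_nonneg p)]
          have h8 := congrArg (fun m : ℕ => (m : ℝ)) hr
          simp only [Nat.cast_prod] at h8
          rw [h8]
        rw [h4, ← Finset.prod_mul_distrib]
        refine Finset.prod_congr rfl fun p hp => ?_
        have hp' : (1 : ℝ) < p := by exact_mod_cast (Nat.prime_of_mem_primeFactors hp).one_lt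
        have h5 := Real.one_lt_rpow hp' hη
        rw [Real.rpow_neg (by linarith)]
        have h6 : (p : ℝ) ^ η ≠ 0 := by linarith
        have h7 : (p : ℝ) ^ η - 1 ≠ 0 := by linarith
        field_simp
    _ = _ := mul_comm _ _

theorem t_RADN : S_RADN := by
  intro η hη
  obtain ⟨P₀, hP₀⟩ : ∃ P₀ : ℕ, ∀ p : ℕ, P₀ ≤ p → (2 : ℝ) ≤ (p : ℝ) ^ η := by
    have h1 := (tendsto_rpow_atTop hη).comp tendsto_natCast_atTop_atTop (α := ℕ)
    obtain ⟨P₀, h⟩ := (h1.eventually_ge_atTop 2).exists_forall_of_atTop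
    exact ⟨P₀, h⟩
  set C : ℝ := ∏ p ∈ Finset.range P₀, max 1 (((p : ℝ) ^ η - 1)⁻¹) with hC
  refine ⟨C, fun X Y hX hY => ?_⟩
  have hcard : Nat.card {n : ℕ // 1 ≤ n ∧ n ≤ X ∧ rad n ≤ Y} =
      ((Finset.Icc 1 X).filter fun n : ℕ => rad n ≤ Y).card := by
    rw [← Nat.card_eq_finsetCard]
    refine Nat.card_congr (Equiv.subtypeEquivRight fun n => ?_)
    rw [Finset.mem_filter, Finset.mem_Icc, and_assoc]
  rw [hcard, Finset.card_eq_sum_card_fiberwise (f := fun n : ℕ => rad n) (t := Finset.Icc 1 Y)]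
  · push_cast
    have h1 : ∀ r ∈ Finset.Icc 1 Y, ((((Finset.Icc 1 X).filter fun n : ℕ => rad n ≤ Y).filter
        fun n : ℕ => rad n = r).card : ℝ) ≤ C * (X : ℝ) ^ η := by
      intro r _
      refine (count_rad hη X r _ ?_).trans ?_
      · intro n hn
        rw [Finset.mem_filter, Finset.mem_filter, Finset.mem_Icc] at hn
        refine ⟨hn.1.1.1, hn.1.1.2, ?_⟩
        have := hn.2
        unfold rad at this
        rwa [Int.natAbs_natCast] at this
      · refine mul_le_mul_of_nonneg_right ?_ (by positivity)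
        refine prod_le' (fun p => ((p : ℝ) ^ η - 1)⁻¹) P₀ _ (fun p hp => ?_) fun p hp => ?_
        · have hp' : (1 : ℝ) < p := by exact_mod_cast (Nat.prime_of_mem_primeFactors hp).one_lt
          have := Real.one_lt_rpow hp' hη
          exact inv_nonneg.mpr (by linarith)
        · have := hP₀ p hp
          exact inv_le_one_of_one_le₀ (by linarith)
    refine (Finset.sum_le_sum h1).trans ?_
    rw [Finset.sum_const, Nat.card_Icc, nsmul_eq_mul]
    simp only [Nat.add_sub_cancel]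
    apply le_of_eq
    ring
  · intro n hn
    rw [Finset.mem_coe, Finset.mem_filter, Finset.mem_Icc] at hn
    rw [Finset.mem_coe, Finset.mem_Icc]
    refine ⟨?_, hn.2⟩
    unfold rad
    exact Nat.one_le_iff_ne_zero.mpr (Finset.prod_ne_zero_iff.mpr fun p hp =>
      (Nat.prime_of_mem_primeFactors hp).ne_zero)

end Run7.h771.FH
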